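import Pool.Agent.Helper97.Tate.Goals

/-!
Project FewPoints (MP_d3128a_ag), helper19: packet TATE-WPT (the nine parameters).
-/

set_option autoImplicit false

namespace Pool.Agent.Helper19.Tate.WPT

open Pool.Agent.Helper97.Tate Finset

/-- the nine rational numbers. -/
def av : Fin 9 → ℚ := ![2, 1 / 2, 3, 1 / 3, 5, 1 / 5, 7, 1 / 7, -1]

theorem av_inj : Function.Injective av := by
  intro i j h
  fin_cases i <;> fin_cases j <;> first | rfl | (exfalso; revert h; norm_num [av])

theorem av_ne (i : Fin 9) : av i ≠ 0 := by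
  fin_cases i <;> norm_num [av]

theorem av_prod : ∏ i, (-av i) = 1 := by
  decide +kernel

theorem t : S_WPT := by
  intro k _ _ z κ hκ
  have hne : ∀ i, ((av i : ℚ) : k) ≠ 0 := fun i => Rat.cast_ne_zero.2 (av_ne i)
  let w : Fin 9 → kˣ := fun i => Units.mk0 ((av i : ℚ) : k) (hne i) * z ^ κ
  have hw : ∀ i, ((w i : kˣ) : k) = (av i : k) * (z : k) ^ κ := by
    intro i
    simp only [w, Units.val_mul, Units.val_mk0, Units.val_pow_eq_pow_val]
  have hz : (z : k) ≠ 0 := z.ne_zero
  refine ⟨w, ?_, ?_, ?_⟩
  · intro i j h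
    have h1 := congrArg (fun u : kˣ => (u : k)) h
    simp only [hw] at h1
    exact av_inj (Rat.cast_injective (mul_right_cancel₀ (pow_ne_zero κ hz) h1))
  · intro m
    refine ⟨∏ i : Fin 9, (-av i) ^ (m (i : ℕ)), ?_, ?_⟩
    · exact prod_ne_zero_iff.2 fun i _ => pow_ne_zero _ (neg_ne_zero.2 (av_ne i))
    · intro j
      have h1 : ∀ i : Fin 9, (-((w i : kˣ) : k)) ^ ((m (i : ℕ) : ℤ) - j) =
          ((-(av i : k)) ^ (m (i : ℕ)) * ((-(av i : k)) ^ j)⁻¹) *
            ((z : k) ^ κ) ^ ((m (i : ℕ) : ℤ) - j) := by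
        intro i
        have hn : (-(av i : k)) ≠ 0 := neg_ne_zero.2 (hne i)
        rw [hw, ← neg_mul, mul_zpow, zpow_sub₀ hn, zpow_natCast, zpow_natCast, div_eq_mul_inv]
      rw [prod_congr rfl fun i _ => h1 i, prod_mul_distrib, prod_mul_distrib, prod_inv_distrib,
        prod_pow]
      have h2 : ∏ i : Fin 9, (-(av i : k)) = 1 := by
        have := congrArg (fun x : ℚ => (x : k)) av_prod
        simpa using this
      rw [h2, one_pow, inv_one, mul_one]
      have h3 : ∏ i : Fin 9, ((z : k) ^ κ) ^ ((m (i : ℕ) : ℤ) - j) =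
          ((z : k) ^ κ) ^ (∑ i : Fin 9, ((m (i : ℕ) : ℤ) - j)) := by
        have hq : (z : k) ^ κ ≠ 0 := pow_ne_zero κ hz
        generalize (z : k) ^ κ = q at hq
        simp only [Fin.sum_univ_succ, Fin.prod_univ_succ, Fin.prod_univ_zero, Fin.sum_univ_zero,
          zpow_add₀ hq, zpow_zero]
      rw [h3]
      have h4 : ∑ i : Fin 9, ((m (i : ℕ) : ℤ) - j) =
          ((∑ i ∈ Finset.range 9, m i : ℕ) : ℤ) - 9 * j := by
        rw [sum_sub_distrib, sum_const, card_univ, Fintype.card_fin, Nat.cast_sum,
          Finset.sum_range, nsmul_eq_mul]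
        norm_num
      rw [h4, ← zpow_natCast (z : k) κ, ← zpow_mul]
      congr 1
      push_cast
      rfl
  · intro b x y hG l i h
    classical
    let p : ℤ × (Fin b → ℤ) × (Fin b → ℤ) := (0, Pi.single l 1, 0)
    let q : ℤ × (Fin b → ℤ) × (Fin b → ℤ) := ((κ : ℤ), 0, 0)
    have hp : (mon z x y p : k) = (x l : k) := by
      have : mon z x y p = x l := by
        unfold mon
        simp only [p, zpow_zero, one_mul, Pi.zero_apply, prod_const_one, mul_one]
        rw [prod_eq_single l]
        · rw [Pi.single_eq_same, zpow_one]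
        · intro c _ hc
          rw [Pi.single_eq_of_ne hc, zpow_zero]
        · intro hl
          exact absurd (mem_univ l) hl
      rw [this]
    have hq : (mon z x y q : k) = (z : k) ^ κ := by
      have : mon z x y q = z ^ κ := by
        unfold mon
        simp only [q, Pi.zero_apply, zpow_zero, prod_const_one, mul_one, zpow_natCast]
      rw [this, Units.val_pow_eq_pow_val]
    have hpq : p ≠ q := by
      intro h
      have h1 := congrFun (congrArg (fun u : ℤ × (Fin b → ℤ) × (Fin b → ℤ) => u.2.1) h) l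
      simp [p, q] at h1
    have h1 : (x l : k) = (av i : k) * (z : k) ^ κ := by rw [h, hw]
    unfold Gen at hG
    have h2 := linearIndependent_iff'.1 hG {p, q}
      (fun u => if u = p then 1 else if u = q then -av i else 0) (by
        rw [sum_pair hpq]
        simp only [if_true, if_neg hpq.symm, one_smul]
        rw [Rat.smul_def, hp, hq, h1]
        push_cast
        ring) p (by simp)
    simp at h2

end Pool.Agent.Helper19.Tate.WPT
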